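import Pool.Agent.W343.FZH.Spec

set_option autoImplicit false

open Finset Filter Topology

namespace Pool.Agent.W958.FZH

open Pool.Agent.W681.FZ

/-- the glued link sequence -/
noncomputable def GB (c : ℕ → ℂ) (N : ℕ) : ℕ → ℂ := fun k =>
  if k % (N+2) = 0 then 1
  else if k % (N+2) = N + 1 then 1
  else cj c N (k / (N+2)) (k % (N+2) - 1)

lemma GB_pm {c : ℕ → ℂ} (hc : PM c) (N : ℕ) : PM (GB c N) := by
  intro k
  unfold GB
  split_ifs
  · exact Or.inl rfl
  · exact Or.inl rfl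
  · exact cj_pm hc _ _ _

lemma GB_at2 (c : ℕ → ℂ) (N : ℕ) (j i : ℕ) (hi : i < N) :
    GB c N ((N+2)*j+1+i) = cj c N j i := by
  have h1 : ((N+2)*j+1+i) % (N+2) = i+1 := by
    rw [show (N+2)*j+1+i = (i+1) + (N+2)*j by ring, Nat.add_mul_mod_self_left]
    exact Nat.mod_eq_of_lt (by omega)
  have h2 : ((N+2)*j+1+i) / (N+2) = j := by
    rw [show (N+2)*j+1+i = (i+1) + (N+2)*j by ring, Nat.add_mul_div_left _ _ (by omega),
      Nat.div_eq_of_lt (by omega)]
    omega
  have h3 : ¬ (i + 1 = 0) := by omega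
  have h4 : ¬ (i + 1 = N + 1) := by omega
  simp only [GB, h1, h2, if_neg h3, if_neg h4]
  rfl

lemma GB_per (c : ℕ → ℂ) (N k : ℕ) : GB c N (k % ((N+2)*2)) = GB c N k := by
  have h1 : k % ((N+2)*2) % (N+2) = k % (N+2) := Nat.mod_mod_of_dvd _ (Dvd.intro _ rfl)
  have h2 : k % ((N+2)*2) / (N+2) = k / (N+2) % 2 := Nat.mod_mul_right_div_self _ _ _
  have h3 : ∀ j i, cj c N (j % 2) i = cj c N j i := by
    intro j i
    unfold cj
    rw [Nat.mod_mod]
  simp only [GB, h1, h2, h3]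

/-- the periodic sequence -/
noncomputable def GZ (c : ℕ → ℂ) (N : ℕ) : ℤ → ℂ := fun n =>
  GB c N (n % (((N+2)*2 : ℕ) : ℤ)).toNat

lemma GZ_nat (c : ℕ → ℂ) (N : ℕ) (k : ℕ) : GZ c N (k : ℤ) = GB c N k := by
  unfold GZ
  rw [← Int.natCast_mod, Int.toNat_natCast]
  exact GB_per c N k

lemma GZ_per (c : ℕ → ℂ) (N : ℕ) (n : ℤ) : GZ c N (n + (((N+2)*2 : ℕ) : ℤ)) = GZ c N n := by
  unfold GZ
  rw [Int.add_emod_right]

lemma phi_cj {z : ℂ} {c : ℕ → ℂ} {N : ℕ} (h : phi z c (N+1) = 0) (j : ℕ) :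
    phi z (cj c N j) (N+1) = 0 := by
  unfold cj
  split_ifs with hj
  · exact h
  · rcases Nat.eq_zero_or_pos N with h0 | h0
    · subst h0
      simpa using h
    · have := phi_rev z c (N-1) (N+1) (by omega)
      rw [show N - 1 + 2 - (N+1) = 0 by omega, D_origin, h] at this
      exact this

lemma phi_det {z : ℂ} {c : ℕ → ℂ} {N : ℕ} (hc : PM c) (h : phi z c (N+1) = 0) :
    ‖phi z (fun i => c i) N‖ * ‖phi z (fun i => c (N - 1 - i)) N‖ = 1 := by
  rcases Nat.eq_zero_or_pos N with h0 | h0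
  · subst h0
    simp
  · obtain ⟨M, rfl⟩ : ∃ M, N = M + 1 := ⟨N - 1, by omega⟩
    have h1 := phi_rev z c (M + 1 - 1) (M+1) (by omega)
    rw [show M + 1 - 1 + 2 - (M+1) = 1 by omega] at h1
    have h2 := D_det z c 0 M
    rw [D_origin, D_origin, h, zero_mul, sub_zero] at h2
    have h3 : ‖∏ i ∈ range (M+1), c (0 + i)‖ = 1 := by
      rw [norm_prod]
      exact prod_eq_one fun i _ => hc.norm _
    rw [h1, ← norm_mul]
    rw [← h2] at h3
    exact h3

lemma two {z : ℂ} {c : ℕ → ℂ} {N : ℕ} (hc : PM c) (h : phi z c (N+1) = 0) (j : ℕ) :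
    ‖phi z (cj c N j) N‖ * ‖phi z (cj c N (j+1)) N‖ = 1 := by
  have h1 := phi_det hc h
  rcases Nat.mod_two_eq_zero_or_one j with hj | hj
  · have e1 : cj c N j = fun i => c i := by
      funext i
      simp only [cj, if_pos hj]
    have e2 : cj c N (j+1) = fun i => c (N - 1 - i) := by
      funext i
      have : ¬ ((j+1) % 2 = 0) := by omega
      simp only [cj, if_neg this]
    rw [e1, e2]
    exact h1
  · have e1 : cj c N (j+1) = fun i => c i := by
      funext i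
      have : (j+1) % 2 = 0 := by omega
      simp only [cj, if_pos this]
    have e2 : cj c N j = fun i => c (N - 1 - i) := by
      funext i
      have : ¬ (j % 2 = 0) := by omega
      simp only [cj, if_neg this]
    rw [e1, e2, mul_comm]
    exact h1

/-- a solution vanishing at `p` -/
lemma after_zero (z : ℂ) (B x : ℕ → ℂ) (hx : ∀ k, x (k+2) = z * x (k+1) - B k * x k)
    (p : ℕ) (hp : x p = 0) (k : ℕ) : x (p + 1 + k) = phi z (sh (p+1) B) k * x (p+1) := by
  cases k with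
  | zero => simp
  | succ k =>
    have := sol_formula z B x hx p k
    rw [hp, mul_zero, sub_zero] at this
    rw [show p + 1 + (k + 1) = p + 2 + k by ring, this]
    rfl

lemma step {z : ℂ} {c : ℕ → ℂ} {N : ℕ} (hc : PM c) (h : phi z c (N+1) = 0) (x : ℕ → ℂ)
    (hx : ∀ k, x (k+2) = z * x (k+1) - GB c N k * x k) (j : ℕ) (hp : x ((N+2)*j) = 0) :
    x ((N+2)*(j+1)) = 0 ∧
    ‖x ((N+2)*(j+1) + 1)‖ = ‖x ((N+2)*(j+1) - 1)‖ ∧
    ‖x ((N+2)*(j+1) - 1)‖ = ‖phi z (cj c N j) N‖ * ‖x ((N+2)*j+1)‖ := by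
  have e : ∀ n, n ≤ N + 1 → phi z (sh ((N+2)*j+1) (GB c N)) n = phi z (cj c N j) n := by
    intro n hn
    apply phi_congr
    intro i hi
    simp only [sh]
    exact GB_at2 c N j i (by omega)
  have h1 := after_zero z (GB c N) x hx ((N+2)*j) hp (N+1)
  rw [e (N+1) le_rfl, phi_cj h j, zero_mul] at h1
  have h2 := after_zero z (GB c N) x hx ((N+2)*j) hp N
  rw [e N (by omega)] at h2
  have i1 : (N+2)*j + 1 + (N+1) = (N+2)*(j+1) := by ring
  have i2 : (N+2)*j + 1 + N = (N+2)*(j+1) - 1 := by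
    rw [← i1]; omega
  rw [i1] at h1
  rw [i2] at h2
  refine ⟨h1, ?_, ?_⟩
  · have h3 := hx ((N+2)*(j+1) - 1)
    have i3 : (N+2)*(j+1) - 1 + 2 = (N+2)*(j+1) + 1 := by
      rw [← i1]; omega
    have i4 : (N+2)*(j+1) - 1 + 1 = (N+2)*(j+1) := by
      rw [← i1]; omega
    rw [i3, i4, h1, mul_zero, zero_sub] at h3
    rw [h3, norm_neg, norm_mul, (GB_pm hc N).norm, one_mul]
  · rw [h2, norm_mul]

lemma zeros {z : ℂ} {c : ℕ → ℂ} {N : ℕ} (hc : PM c) (h : phi z c (N+1) = 0) (x : ℕ → ℂ)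
    (hx : ∀ k, x (k+2) = z * x (k+1) - GB c N k * x k) (h0 : x 0 = 0) (j : ℕ) :
    x ((N+2)*j) = 0 := by
  induction j with
  | zero => simpa using h0
  | succ j ih => exact (step hc h x hx j ih).1

lemma ones {z : ℂ} {c : ℕ → ℂ} {N : ℕ} (hc : PM c) (h : phi z c (N+1) = 0) (x : ℕ → ℂ)
    (hx : ∀ k, x (k+2) = z * x (k+1) - GB c N k * x k) (h0 : x 0 = 0) (h1 : ‖x 1‖ = 1) (j : ℕ) :
    ‖x ((N+2)*(2*j)+1)‖ = 1 := by
  induction j with
  | zero => simpa using h1
  | succ j ih =>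
    have s1 := step hc h x hx (2*j) (zeros hc h x hx h0 _)
    have s2 := step hc h x hx (2*j+1) (zeros hc h x hx h0 _)
    rw [show 2*(j+1) = 2*j+1+1 by ring, s2.2.1, s2.2.2, s1.2.1, s1.2.2, ih, mul_one, mul_comm]
    exact two hc h (2*j)

theorem core {z : ℂ} {c : ℕ → ℂ} {N : ℕ} (hc : PM c) (h : phi z c (N+1) = 0) :
    ¬ Bij z (GZ c N) := by
  intro hB
  obtain ⟨C, hC, hb⟩ := hB.bound'
  set x : ℕ → ℂ := xs z (GB c N) with hxdef
  have hx : ∀ k, x (k+2) = z * x (k+1) - GB c N k * x k := xs_rec z _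
  have h0 : x 0 = 0 := rfl
  have h1 : x 1 = 1 := by
    show phi z (sh 1 (GB c N)) 0 = 1
    simp
  have h1' : ‖x 1‖ = 1 := by rw [h1, norm_one]
  obtain ⟨m, hm⟩ := exists_nat_gt (2 * C ^ 2)
  have hm0 : 0 < m := by
    rcases Nat.eq_zero_or_pos m with h | h
    · subst h
      have : 0 < C ^ 2 := by positivity
      simp at hm
      linarith
    · exact h
  set n : ℕ := (N+2)*(2*m) - 2 with hn
  have hn2 : n + 2 = (N+2)*(2*m) := by
    have : 2 ≤ (N+2)*(2*m) := by nlinarith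
    omega
  set X : ℕ → ℂ := fun i => if i ≤ n then x (i+1) else 0 with hX
  have hz : x (n+2) = 0 := by rw [hn2]; exact zeros hc h x hx h0 _
  have hXv : ∀ i, i ≤ n + 1 → X i = x (i+1) := by
    intro i hi
    rcases Nat.lt_or_ge n i with h | h
    · have : i = n + 1 := by omega
      subst this
      simp only [hX, if_neg (by omega : ¬ (n + 1 ≤ n))]
      exact hz.symm
    · simp only [hX, if_pos h]
  have hw := window_bound hb 1 n (sh 1 (GB c N)) X ((GB_pm hc N).sh 1)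
    (by
      intro i hi
      rw [show (1:ℤ) + (i:ℤ) = ((1 + i : ℕ) : ℤ) by push_cast; ring, GZ_nat]
      rfl)
    (by
      intro i hi
      simp only [hX, if_neg (by omega : ¬ (i ≤ n))])
  have hres : ∑ k ∈ range (n+1), ‖res z (sh 1 (GB c N)) X k‖ ^ 2 = 0 := by
    apply sum_eq_zero
    intro k hk
    have hk' : k < n + 1 := mem_range.1 hk
    have : res z (sh 1 (GB c N)) X k = 0 := by
      cases k with
      | zero =>
        show X 1 - z * X 0 = 0
        rw [hXv 1 (by omega), hXv 0 (by omega), hx 0, h0]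
        ring
      | succ k =>
        show sh 1 (GB c N) k * X k + X (k+2) - z * X (k+1) = 0
        rw [hXv k (by omega), hXv (k+2) (by omega), hXv (k+1) (by omega)]
        have := hx (k+1)
        rw [show k + 2 + 1 = k + 1 + 2 by ring, this]
        simp only [sh]
        rw [show 1 + k = k + 1 by ring]
        ring
    rw [this]
    simp
  have hX0 : ‖X 0‖ = 1 := by rw [hXv 0 (by omega)]; exact h1'
  have hXn : ‖X n‖ = 1 := by
    rw [hXv n (by omega)]
    obtain ⟨m', rfl⟩ : ∃ m', m = m' + 1 := ⟨m - 1, by omega⟩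
    have s2 := step hc h x hx (2*m'+1) (zeros hc h x hx h0 _)
    have e1 : n + 1 = (N+2)*(2*m'+1+1) - 1 := by
      have : n + 2 = (N+2)*(2*m'+1+1) := by rw [hn2]; ring
      omega
    rw [e1, ← s2.2.1, show 2*m'+1+1 = 2*(m'+1) by ring]
    exact ones hc h x hx h0 h1' _
  rw [hres, hX0, hXn] at hw
  have hlow : (m : ℝ) ≤ ∑ k ∈ range (n+1), ‖X k‖ ^ 2 := by
    have inj : Set.InjOn (fun j : ℕ => (N+2)*(2*j)) (range m : Finset ℕ) := by
      intro a _ b _ hab
      have : (N+2)*(2*a) = (N+2)*(2*b) := hab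
      have := Nat.eq_of_mul_eq_mul_left (by omega) this
      omega
    have hsub : (range m).image (fun j : ℕ => (N+2)*(2*j)) ⊆ range (n+1) := by
      intro k hk
      rw [mem_image] at hk
      obtain ⟨j, hj, rfl⟩ := hk
      have hj' : j + 1 ≤ m := mem_range.1 hj
      rw [mem_range]
      have : (N+2)*(2*(j+1)) ≤ (N+2)*(2*m) := Nat.mul_le_mul_left _ (by omega)
      have e : (N+2)*(2*(j+1)) = (N+2)*(2*j) + 2 * (N+2) := by ring
      show (N+2)*(2*j) < n + 1
      omega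
    calc (m : ℝ) = ∑ k ∈ (range m).image (fun j : ℕ => (N+2)*(2*j)), (1:ℝ) := by
          rw [sum_image inj]
          simp
      _ ≤ ∑ k ∈ (range m).image (fun j : ℕ => (N+2)*(2*j)), ‖X k‖ ^ 2 := by
          apply sum_le_sum
          intro k hk
          have hk2 := mem_range.1 (hsub hk)
          rw [mem_image] at hk
          obtain ⟨j, hj, rfl⟩ := hk
          show (1:ℝ) ≤ ‖X ((N+2)*(2*j))‖ ^ 2
          have hk3 : (N+2)*(2*j) < n + 1 := hk2
          rw [hXv _ (by omega), ones hc h x hx h0 h1' j]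
          norm_num
      _ ≤ ∑ k ∈ range (n+1), ‖X k‖ ^ 2 :=
          sum_le_sum_of_subset_of_nonneg hsub (fun _ _ _ => by positivity)
  norm_num at hw
  linarith

lemma GZ_pm {c : ℕ → ℂ} (hc : PM c) (N : ℕ) (n : ℤ) : GZ c N n = 1 ∨ GZ c N n = -1 :=
  GB_pm hc N _

/-- Part E of project FZH. -/
theorem partE : Pool.Agent.W343.FZH.PartE := by
  rintro z ⟨c, N, hc, h⟩
  exact ⟨GZ c N, GZ_pm hc N, ⟨(N+2)*2, by omega, GZ_per c N⟩, core hc h⟩

end Pool.Agent.W958.FZH
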